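import Mathlib

set_option autoImplicit false

open Polynomial

namespace Pool.Agent.Results.MP_e85eb4_nt.KappaTwoRat

variable {K : Type} [Field K]

/-- The degree of a rational function over `K`: the larger of the degrees of its coprime
numerator and denominator. -/
noncomputable def ratDegree (f : RatFunc K) : ℕ :=
  max f.num.natDegree f.denom.natDegree

/-- The self-map of the projective line `P^1(K) = K ∪ {∞}` defined by a rational function. -/
noncomputable def toMap (f : RatFunc K) : OnePoint K → OnePoint K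
  | none =>
      if f.denom.natDegree < f.num.natDegree then OnePoint.infty
      else ((f.num.coeff f.denom.natDegree / f.denom.leadingCoeff : K) : OnePoint K)
  | some x =>
      open Classical in
      if f.denom.eval x = 0 then OnePoint.infty
      else ((f.num.eval x / f.denom.eval x : K) : OnePoint K)

/-- The `n`-th iterate `f ∘ ⋯ ∘ f` of a rational function, as a rational function. -/
noncomputable def iter (f : RatFunc K) : ℕ → RatFunc K
  | 0 => RatFunc.X
  | n + 1 => RatFunc.eval RatFunc.C (iter f n) f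

/-- `α` is wandering for `f`: its forward orbit in `P^1(K)` is infinite. -/
def Wandering (f : RatFunc K) (α : K) : Prop :=
  (Set.range fun n : ℕ => (toMap f)^[n] (α : OnePoint K)).Infinite

/-- `Ω_K(h)`: the number of irreducible factors of `h` in `K[x]`, counted with multiplicity. -/
noncomputable def Omega (h : K[X]) : ℕ :=
  Multiset.card (UniqueFactorizationMonoid.factors h)

/-- `κ` is an admissible value of `κ(d, K)`: for every rational function `f` of degree `d` over `K`
and every `α ∈ K` wandering for `f` with no preimage in `P^1(K)`, the numerator of `f^n(x) - α`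
has at most `κ` irreducible factors, for all `n ≥ 1`. -/
def Admissible (d : ℕ) (K : Type) [Field K] (κ : ℕ) : Prop :=
  ∀ f : RatFunc K, ratDegree f = d → ∀ α : K, Wandering f α →
    (∀ x : OnePoint K, toMap f x ≠ (α : OnePoint K)) →
    ∀ n : ℕ, 1 ≤ n →
      Omega ((iter f n).num - Polynomial.C α * (iter f n).denom) ≤ κ

/-! ### The example -/

/-- The constant `c = 17/48`. -/
noncomputable def cc : ℚ := 17 / 48

/-- The target `α = -277/12`. -/
noncomputable def aa : ℚ := -277 / 12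

/-- The polynomial `x^2 + 17/48`. -/
noncomputable def fp : ℚ[X] := X ^ 2 + C cc

/-- Iterates of the polynomial. -/
noncomputable def P : ℕ → ℚ[X]
  | 0 => X
  | n + 1 => (P n) ^ 2 + C cc

lemma iter_eq (n : ℕ) :
    iter (algebraMap ℚ[X] (RatFunc ℚ) fp) n = algebraMap ℚ[X] (RatFunc ℚ) (P n) := by
  induction n with
  | zero => simp [iter, P]
  | succ n ih =>
    rw [iter, ih, RatFunc.eval, RatFunc.num_algebraMap, RatFunc.denom_algebraMap, P, fp]
    simp only [eval₂_one, div_one, eval₂_add, eval₂_pow, eval₂_X, eval₂_C, map_add, map_pow,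
      RatFunc.algebraMap_C]

lemma toMap_coe (x : ℚ) :
    toMap (algebraMap ℚ[X] (RatFunc ℚ) fp) (x : OnePoint ℚ) = ((x ^ 2 + cc : ℚ) : OnePoint ℚ) := by
  show toMap (algebraMap ℚ[X] (RatFunc ℚ) fp) (some x) = _
  rw [toMap, RatFunc.num_algebraMap, RatFunc.denom_algebraMap]
  simp [fp]

lemma natDegree_fp : fp.natDegree = 2 := by
  unfold fp
  compute_degree!

lemma toMap_infty :
    toMap (algebraMap ℚ[X] (RatFunc ℚ) fp) (OnePoint.infty : OnePoint ℚ) = OnePoint.infty := by
  show toMap (algebraMap ℚ[X] (RatFunc ℚ) fp) none = _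
  simp [toMap, RatFunc.num_algebraMap, RatFunc.denom_algebraMap, natDegree_fp]

/-- The orbit of `α`. -/
noncomputable def orb : ℕ → ℚ
  | 0 => aa
  | n + 1 => (orb n) ^ 2 + cc

lemma iterate_eq (n : ℕ) :
    (toMap (algebraMap ℚ[X] (RatFunc ℚ) fp))^[n] (aa : OnePoint ℚ) = ((orb n : ℚ) : OnePoint ℚ) := by
  induction n with
  | zero => rfl
  | succ n ih => rw [Function.iterate_succ_apply', ih, toMap_coe]; rfl

lemma orb_big (n : ℕ) : 2 ≤ orb (n + 1) := by
  induction n with
  | zero => simp [orb, aa, cc]; norm_num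
  | succ n ih =>
    rw [orb]
    have : (0 : ℚ) ≤ cc := by unfold cc; norm_num
    nlinarith

lemma orb_lt (n : ℕ) : orb (n + 1) < orb (n + 2) := by
  have h := orb_big n
  have h2 : orb (n + 2) = (orb (n + 1)) ^ 2 + cc := rfl
  have : (0 : ℚ) ≤ cc := by unfold cc; norm_num
  rw [h2]; nlinarith

lemma orb_strictMono : StrictMono fun n : ℕ => orb (n + 1) :=
  strictMono_nat_of_lt_succ orb_lt

lemma wandering : Wandering (algebraMap ℚ[X] (RatFunc ℚ) fp) aa := by
  unfold Wandering
  have h1 : (Set.range fun n : ℕ => ((orb (n + 1) : ℚ) : OnePoint ℚ)).Infinite := by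
    apply Set.infinite_range_of_injective
    intro a b hab
    have : orb (a + 1) = orb (b + 1) := OnePoint.coe_injective hab
    exact orb_strictMono.injective this
  refine h1.mono ?_
  rintro _ ⟨n, rfl⟩
  exact ⟨n + 1, by simp only [iterate_eq]⟩

lemma no_preimage (x : OnePoint ℚ) :
    toMap (algebraMap ℚ[X] (RatFunc ℚ) fp) x ≠ (aa : OnePoint ℚ) := by
  induction x using OnePoint.rec with
  | infty => rw [toMap_infty]; exact OnePoint.infty_ne_coe _
  | coe x =>
    rw [toMap_coe]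
    intro h
    have h' : x ^ 2 + cc = aa := OnePoint.coe_injective h
    have : (0 : ℚ) ≤ x ^ 2 := sq_nonneg x
    unfold cc aa at h'
    linarith

/-- The four quadratic factors and the remaining factor of degree eight. -/
noncomputable def q1 : ℚ[X] := X ^ 2 - C 2 * X + C (53 / 48)
noncomputable def q2 : ℚ[X] := X ^ 2 + C 2 * X + C (53 / 48)
noncomputable def q3 : ℚ[X] := X ^ 2 - C (1 / 2) * X + C (83 / 48)
noncomputable def q4 : ℚ[X] := X ^ 2 + C (1 / 2) * X + C (83 / 48)
noncomputable def q5 : ℚ[X] :=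
  ((X ^ 2 + C cc) ^ 2 + C cc) ^ 2 + C 3 * ((X ^ 2 + C cc) ^ 2 + C cc) + C (233 / 48)

lemma C_rel (a b : ℚ) (h : a = b) : (C a : ℚ[X]) = C b := by rw [h]

lemma P_two : P 2 = ((X ^ 2 + C cc) ^ 2 + C cc) := by simp [P]

lemma fac1 (y : ℚ[X]) :
    ((y ^ 2 + C cc) ^ 2 + C cc) - C aa
      = (y ^ 2 - C 3 * y + C (233 / 48)) * (y ^ 2 + C 3 * y + C (233 / 48)) := by
  have h1 : (C 3 : ℚ[X]) = 3 := map_ofNat C 3
  have h2 : (C cc : ℚ[X]) * 2 = 2 * C (233 / 48) - 9 := by
    rw [show (2 : ℚ[X]) = C 2 from (map_ofNat C 2).symm, show (9 : ℚ[X]) = C 9 from (map_ofNat C 9).symm, ← C_mul, ← C_mul,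
      ← C_sub]
    exact C_rel _ _ (by unfold cc; norm_num)
  have h3 : (C cc : ℚ[X]) ^ 2 + C cc - C aa = C (233 / 48) ^ 2 := by
    rw [← C_pow, ← C_pow, ← C_add, ← C_sub]
    exact C_rel _ _ (by unfold cc aa; norm_num)
  rw [h1]
  linear_combination y ^ 2 * h2 + h3

lemma fac2 (y : ℚ[X]) :
    ((y ^ 2 + C cc) ^ 2 - C 3 * (y ^ 2 + C cc) + C (233 / 48))
      = (y ^ 2 - C (5 / 2) * y + C (95 / 48)) * (y ^ 2 + C (5 / 2) * y + C (95 / 48)) := by
  have h2 : (C cc : ℚ[X]) * 2 - C 3 = 2 * C (95 / 48) - C (5 / 2) ^ 2 := by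
    rw [show (2 : ℚ[X]) = C 2 from (map_ofNat C 2).symm, ← C_mul, ← C_mul, ← C_pow, ← C_sub, ← C_sub]
    exact C_rel _ _ (by unfold cc; norm_num)
  have h3 : (C cc : ℚ[X]) ^ 2 - C 3 * C cc + C (233 / 48) = C (95 / 48) ^ 2 := by
    rw [← C_pow, ← C_pow, ← C_mul, ← C_sub, ← C_add]
    exact C_rel _ _ (by unfold cc; norm_num)
  linear_combination y ^ 2 * h2 + h3

lemma fac3 (y : ℚ[X]) :
    ((y ^ 2 + C cc) ^ 2 - C (5 / 2) * (y ^ 2 + C cc) + C (95 / 48))
      = (y ^ 2 - C 2 * y + C (53 / 48)) * (y ^ 2 + C 2 * y + C (53 / 48)) := by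
  have h2 : (C cc : ℚ[X]) * 2 - C (5 / 2) = 2 * C (53 / 48) - C 2 ^ 2 := by
    rw [show (2 : ℚ[X]) = C 2 from (map_ofNat C 2).symm, ← C_mul, ← C_mul, ← C_pow, ← C_sub, ← C_sub]
    exact C_rel _ _ (by unfold cc; norm_num)
  have h3 : (C cc : ℚ[X]) ^ 2 - C (5 / 2) * C cc + C (95 / 48) = C (53 / 48) ^ 2 := by
    rw [← C_pow, ← C_pow, ← C_mul, ← C_sub, ← C_add]
    exact C_rel _ _ (by unfold cc; norm_num)
  linear_combination y ^ 2 * h2 + h3

lemma fac4 (y : ℚ[X]) :
    ((y ^ 2 + C cc) ^ 2 + C (5 / 2) * (y ^ 2 + C cc) + C (95 / 48))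
      = (y ^ 2 - C (1 / 2) * y + C (83 / 48)) * (y ^ 2 + C (1 / 2) * y + C (83 / 48)) := by
  have h2 : (C cc : ℚ[X]) * 2 + C (5 / 2) = 2 * C (83 / 48) - C (1 / 2) ^ 2 := by
    rw [show (2 : ℚ[X]) = C 2 from (map_ofNat C 2).symm, ← C_mul, ← C_mul, ← C_pow, ← C_add, ← C_sub]
    exact C_rel _ _ (by unfold cc; norm_num)
  have h3 : (C cc : ℚ[X]) ^ 2 + C (5 / 2) * C cc + C (95 / 48) = C (83 / 48) ^ 2 := by
    rw [← C_pow, ← C_pow, ← C_mul, ← C_add, ← C_add]
    exact C_rel _ _ (by unfold cc; norm_num)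
  linear_combination y ^ 2 * h2 + h3

lemma fac : P 4 - C aa = q1 * (q2 * (q3 * (q4 * q5))) := by
  have e : P 4 = ((((X ^ 2 + C cc) ^ 2 + C cc) ^ 2 + C cc) ^ 2 + C cc) := by simp [P]
  rw [e, fac1, fac2, fac3, fac4]
  unfold q1 q2 q3 q4 q5
  ring

lemma one_le_Omega {h : ℚ[X]} (h0 : h ≠ 0) (hu : ¬ IsUnit h) :
    1 ≤ Multiset.card (UniqueFactorizationMonoid.factors h) := by
  rw [Nat.one_le_iff_ne_zero, Ne, Multiset.card_eq_zero]
  intro hf
  have := UniqueFactorizationMonoid.factors_prod h0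
  rw [hf, Multiset.prod_zero] at this
  exact hu (associated_one_iff_isUnit.mp this.symm)

lemma Omega_mul {g h : ℚ[X]} (hg : g ≠ 0) (hh : h ≠ 0) :
    Multiset.card (UniqueFactorizationMonoid.factors (g * h))
      = Multiset.card (UniqueFactorizationMonoid.factors g)
        + Multiset.card (UniqueFactorizationMonoid.factors h) := by
  have := UniqueFactorizationMonoid.factors_mul hg hh
  rw [← Multiset.card_add]
  exact Multiset.card_eq_card_of_rel this

lemma deg_facts (q : ℚ[X]) (hq : 0 < q.natDegree) : q ≠ 0 ∧ ¬ IsUnit q := by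
  refine ⟨?_, ?_⟩
  · rintro rfl; simp at hq
  · intro h
    have := natDegree_eq_zero_of_isUnit h
    omega

theorem result (κ : ℕ) : Admissible 2 ℚ κ → 5 ≤ κ := by
  intro h
  have hdeg : ratDegree (algebraMap ℚ[X] (RatFunc ℚ) fp) = 2 := by
    rw [ratDegree, RatFunc.num_algebraMap, RatFunc.denom_algebraMap, natDegree_fp]
    simp
  have := h _ hdeg aa wandering no_preimage 4 (by norm_num)
  rw [iter_eq, RatFunc.num_algebraMap, RatFunc.denom_algebraMap, mul_one, fac] at this
  refine le_trans ?_ this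
  have h1 : 0 < q1.natDegree := by
    have : q1.natDegree = 2 := by unfold q1; compute_degree!
    omega
  have h2 : 0 < q2.natDegree := by
    have : q2.natDegree = 2 := by unfold q2; compute_degree!
    omega
  have h3 : 0 < q3.natDegree := by
    have : q3.natDegree = 2 := by unfold q3; compute_degree!
    omega
  have h4 : 0 < q4.natDegree := by
    have : q4.natDegree = 2 := by unfold q4; compute_degree!
    omega
  have h5 : 0 < q5.natDegree := by
    have : q5.natDegree = 8 := by unfold q5; compute_degree!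
    omega
  obtain ⟨n1, u1⟩ := deg_facts _ h1
  obtain ⟨n2, u2⟩ := deg_facts _ h2
  obtain ⟨n3, u3⟩ := deg_facts _ h3
  obtain ⟨n4, u4⟩ := deg_facts _ h4
  obtain ⟨n5, u5⟩ := deg_facts _ h5
  unfold Omega
  rw [Omega_mul n1 (mul_ne_zero n2 (mul_ne_zero n3 (mul_ne_zero n4 n5))),
    Omega_mul n2 (mul_ne_zero n3 (mul_ne_zero n4 n5)),
    Omega_mul n3 (mul_ne_zero n4 n5), Omega_mul n4 n5]
  have := one_le_Omega n1 u1
  have := one_le_Omega n2 u2
  have := one_le_Omega n3 u3
  have := one_le_Omega n4 u4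
  have := one_le_Omega n5 u5
  omega

end Pool.Agent.Results.MP_e85eb4_nt.KappaTwoRat
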