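import Mathlib

/-!
# MP_e85eb4_nt, Q1: there is no uniform bound `κ(d, K)` when `d` is not a prime power

Example: `d = 6`, `K = ℚ`, `f = x^6`, `α = 2^(3^k)`.  The point `α` is wandering and is not a sixth
power in `ℚ`, but `f^k(x) - α = x^(6^k) - 2^(3^k)` has at least `k + 1` irreducible factors.
-/

set_option autoImplicit false

open Polynomial

namespace Pool.Agent.Results.MP_e85eb4_nt.NoUniformBound

variable {K : Type} [Field K]

/-- The degree of a rational function over `K`: the larger of the degrees of its coprime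
numerator and denominator. -/
noncomputable def ratDegree (f : RatFunc K) : ℕ :=
  max f.num.natDegree f.denom.natDegree

/-- The self-map of the projective line `P^1(K) = K ∪ {∞}` defined by a rational function. -/
noncomputable def toMap (f : RatFunc K) : OnePoint K → OnePoint K
  | none =>
      if f.denom.natDegree < f.num.natDegree then OnePoint.infty
      else ((f.num.coeff f.denom.natDegree / f.denom.leadingCoeff : K) : OnePoint K)
  | some x =>
      open Classical in
      if f.denom.eval x = 0 then OnePoint.infty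
      else ((f.num.eval x / f.denom.eval x : K) : OnePoint K)

/-- The `n`-th iterate `f ∘ ⋯ ∘ f` of a rational function, as a rational function. -/
noncomputable def iter (f : RatFunc K) : ℕ → RatFunc K
  | 0 => RatFunc.X
  | n + 1 => RatFunc.eval RatFunc.C (iter f n) f

/-- `α` is wandering for `f`: its forward orbit in `P^1(K)` is infinite. -/
def Wandering (f : RatFunc K) (α : K) : Prop :=
  (Set.range fun n : ℕ => (toMap f)^[n] (α : OnePoint K)).Infinite

/-- `Ω_K(h)`: the number of irreducible factors of `h` in `K[x]`, counted with multiplicity. -/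
noncomputable def Omega (h : K[X]) : ℕ :=
  Multiset.card (UniqueFactorizationMonoid.factors h)

/-- `κ` is an admissible value of `κ(d, K)`: for every rational function `f` of degree `d` over `K`
and every `α ∈ K` wandering for `f` with no preimage in `P^1(K)`, the numerator of `f^n(x) - α`
has at most `κ` irreducible factors, for all `n ≥ 1`. -/
def Admissible (d : ℕ) (K : Type) [Field K] (κ : ℕ) : Prop :=
  ∀ f : RatFunc K, ratDegree f = d → ∀ α : K, Wandering f α →
    (∀ x : OnePoint K, toMap f x ≠ (α : OnePoint K)) →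
    ∀ n : ℕ, 1 ≤ n →
      Omega ((iter f n).num - Polynomial.C α * (iter f n).denom) ≤ κ

/-! ### Power maps -/

/-- The rational function `x^d`. -/
noncomputable def pw (K : Type) [Field K] (d : ℕ) : RatFunc K := algebraMap K[X] (RatFunc K) (X ^ d)

lemma pw_num (d : ℕ) : (pw K d).num = X ^ d := by rw [pw, RatFunc.num_algebraMap]

lemma pw_denom (d : ℕ) : (pw K d).denom = 1 := by rw [pw, RatFunc.denom_algebraMap]

lemma iter_eq (d n : ℕ) : iter (pw K d) n = pw K (d ^ n) := by
  induction n with
  | zero => simp [iter, pw]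
  | succ n ih =>
    rw [iter, ih, RatFunc.eval, pw_num, pw_denom]
    simp only [eval₂_one, div_one, eval₂_pow, eval₂_X, pw, ← map_pow]
    congr 1
    rw [← pow_mul, pow_succ]

lemma toMap_coe (d : ℕ) (x : K) : toMap (pw K d) (x : OnePoint K) = ((x ^ d : K) : OnePoint K) := by
  show toMap (pw K d) (some x) = _
  rw [toMap, pw_num, pw_denom]
  simp

lemma toMap_infty {d : ℕ} (hd : 0 < d) : toMap (pw K d) (OnePoint.infty : OnePoint K) =
    OnePoint.infty := by
  show toMap (pw K d) none = _
  rw [toMap, pw_num, pw_denom]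
  simp [hd]

lemma iterate_eq (d : ℕ) (x : K) (n : ℕ) :
    (toMap (pw K d))^[n] (x : OnePoint K) = ((x ^ (d ^ n) : K) : OnePoint K) := by
  induction n with
  | zero => simp
  | succ n ih => rw [Function.iterate_succ_apply', ih, toMap_coe, ← pow_mul, pow_succ]

/-! ### Counting factors -/

lemma Omega_mul {a b : K[X]} (ha : a ≠ 0) (hb : b ≠ 0) : Omega (a * b) = Omega a + Omega b := by
  unfold Omega
  rw [← Multiset.card_add]
  exact Multiset.card_eq_card_of_rel (UniqueFactorizationMonoid.factors_mul ha hb)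

lemma one_le_Omega {a : K[X]} (ha : 0 < a.natDegree) : 1 ≤ Omega a := by
  have h0 : a ≠ 0 := by rintro rfl; simp at ha
  obtain ⟨p, hp⟩ := UniqueFactorizationMonoid.exists_mem_factors h0 (by
    intro hu
    rw [Polynomial.natDegree_eq_zero_of_isUnit hu] at ha
    exact lt_irrefl _ ha)
  exact Multiset.card_pos_iff_exists_mem.2 ⟨p, hp⟩

lemma natDegree_P (m : ℕ) (c : K) : (X ^ m - C c : K[X]).natDegree = m :=
  natDegree_X_pow_sub_C

lemma chain (M q : ℕ) (hM : 0 < M) (hq : 2 ≤ q) (b : K) (j : ℕ) :
    j + 1 ≤ Omega (X ^ (q ^ j * M) - C (b ^ (q ^ j)) : K[X]) := by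
  induction j with
  | zero =>
    apply one_le_Omega
    rw [natDegree_P]
    simpa using hM
  | succ j ih =>
    have hne : ∀ i : ℕ, (X ^ (q ^ i * M) - C (b ^ (q ^ i)) : K[X]) ≠ 0 := by
      intro i h
      have h1 := natDegree_P (q ^ i * M) (b ^ (q ^ i))
      rw [h, natDegree_zero] at h1
      have : 0 < q ^ i * M := by positivity
      omega
    have hdvd : (X ^ (q ^ j * M) - C (b ^ (q ^ j)) : K[X]) ∣
        X ^ (q ^ (j + 1) * M) - C (b ^ (q ^ (j + 1))) := by
      have h1 := sub_dvd_pow_sub_pow (X ^ (q ^ j * M) : K[X]) (C (b ^ (q ^ j))) q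
      have h2 : ((X ^ (q ^ j * M) : K[X])) ^ q = X ^ (q ^ (j + 1) * M) := by
        rw [← pow_mul]; congr 1; ring
      have h3 : (C (b ^ (q ^ j)) : K[X]) ^ q = C (b ^ (q ^ (j + 1))) := by
        rw [← C_pow, ← pow_mul, pow_succ]
      rwa [h2, h3] at h1
    obtain ⟨R, hR⟩ := hdvd
    have hR0 : R ≠ 0 := by
      rintro rfl
      rw [mul_zero] at hR
      exact hne _ hR
    have hdeg := congrArg natDegree hR
    rw [natDegree_mul (hne j) hR0, natDegree_P, natDegree_P] at hdeg
    have hlt : q ^ j * M < q ^ (j + 1) * M := by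
      apply Nat.mul_lt_mul_of_pos_right _ hM
      exact Nat.pow_lt_pow_right hq (Nat.lt_succ_self j)
    rw [hR, Omega_mul (hne j) hR0]
    have h1 := one_le_Omega (a := R) (by omega)
    omega

/-! ### The theorem -/

open IsDedekindDomain in
/-- In a number field there is an element that is a uniformizer at some finite place. -/
lemma exists_unif (K : Type) [Field K] [NumberField K] :
    ∃ (v : Valuation K (WithZero (Multiplicative ℤ))) (b : K),
      v b = ((Multiplicative.ofAdd (-1 : ℤ) : Multiplicative ℤ) : WithZero (Multiplicative ℤ)) := by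
  have h : ∃ P : Ideal (NumberField.RingOfIntegers K), P.IsMaximal ∧ P ≠ ⊥ := by
    obtain ⟨P, hP1, hP2⟩ := Ring.not_isField_iff_exists_prime.1
      (NumberField.RingOfIntegers.not_isField K)
    exact ⟨P, hP2.isMaximal hP1, hP1⟩
  obtain ⟨P, hP1, hP2⟩ := h
  let v : HeightOneSpectrum (NumberField.RingOfIntegers K) := ⟨P, hP1.isPrime, hP2⟩
  obtain ⟨b, hb⟩ := v.valuation_exists_uniformizer K
  exact ⟨v.valuation K, b, hb⟩

/-- **No uniform bound.**  For every number field `K` and every `d ≥ 2` that is not a prime power,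
no `κ` is admissible for `(d, K)`. -/
theorem result (K : Type) [Field K] [NumberField K] (d : ℕ) (hd : 2 ≤ d) (hpp : ¬ IsPrimePow d)
    (κ : ℕ) : ¬ Admissible d K κ := by
  intro hadm
  -- two distinct primes dividing `d`
  obtain ⟨p, q, hp, hq, hpq, hpd, hqd⟩ : ∃ p q : ℕ, p.Prime ∧ q.Prime ∧ p ≠ q ∧ p ∣ d ∧ q ∣ d := by
    obtain ⟨p, hp, hpd⟩ := Nat.exists_prime_and_dvd (show d ≠ 1 by omega)
    by_contra hcon
    push Not at hcon
    apply hpp
    rw [isPrimePow_iff_unique_prime_dvd]
    refine ⟨p, ⟨hp, hpd⟩, ?_⟩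
    rintro q ⟨hq, hqd⟩
    by_contra hne
    exact hcon p q hp hq (fun h => hne h.symm) hpd hqd
  obtain ⟨v, b, hb⟩ := exists_unif K
  set α : K := b ^ (q ^ κ) with hα
  -- powers of `b`
  have hval : ∀ m : ℕ, v (b ^ m) =
      ((Multiplicative.ofAdd (-(m : ℤ)) : Multiplicative ℤ) : WithZero (Multiplicative ℤ)) := by
    intro m
    rw [map_pow, hb, ← WithZero.coe_pow, ← ofAdd_nsmul]
    congr 2
    simp
  have hdiv : ∀ (x : K) (m : ℕ), x ^ d = b ^ m → d ∣ m := by
    intro x m hx
    have h1 := hval m
    rw [← hx, map_pow] at h1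
    have hx0 : v x ≠ 0 := by
      intro h0
      rw [h0, zero_pow (by omega)] at h1
      exact WithZero.coe_ne_zero h1.symm
    obtain ⟨z, hz⟩ := WithZero.ne_zero_iff_exists.1 hx0
    rw [← hz, ← WithZero.coe_pow, WithZero.coe_inj] at h1
    have h2 := congrArg Multiplicative.toAdd h1
    rw [toAdd_pow, toAdd_ofAdd] at h2
    have h3 : (d : ℤ) ∣ (m : ℤ) := by
      refine ⟨-(Multiplicative.toAdd z), ?_⟩
      rw [nsmul_eq_mul] at h2
      linarith
    exact Int.natCast_dvd_natCast.1 h3
  have hinj : ∀ m m' : ℕ, b ^ m = b ^ m' → m = m' := by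
    intro m m' h
    have h1 := hval m
    rw [h, hval m', WithZero.coe_inj] at h1
    have h2 := congrArg Multiplicative.toAdd h1
    rw [toAdd_ofAdd, toAdd_ofAdd] at h2
    omega
  have hdeg : ratDegree (pw K d) = d := by
    rw [ratDegree, pw_num, pw_denom]
    simp
  have hwand : Wandering (pw K d) α := by
    apply Set.infinite_range_of_injective
    intro n n' h
    simp only [iterate_eq] at h
    rw [OnePoint.coe_eq_coe] at h
    rw [hα, ← pow_mul, ← pow_mul] at h
    have h1 := hinj _ _ h
    have h2 : d ^ n = d ^ n' := Nat.eq_of_mul_eq_mul_left (pow_pos hq.pos κ) h1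
    exact Nat.pow_right_injective hd h2
  have hpre : ∀ x : OnePoint K, toMap (pw K d) x ≠ (α : OnePoint K) := by
    intro x
    induction x using OnePoint.rec with
    | infty =>
      rw [toMap_infty (by omega)]
      exact OnePoint.infty_ne_coe α
    | coe x =>
      rw [toMap_coe, Ne, OnePoint.coe_eq_coe]
      intro h
      have h1 := hdiv x (q ^ κ) h
      have h2 : p ∣ q ^ κ := hpd.trans h1
      exact hpq ((Nat.prime_dvd_prime_iff_eq hp hq).1 (hp.dvd_of_dvd_pow h2))
  have hfin := hadm (pw K d) hdeg α hwand hpre (κ + 1) (by omega)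
  rw [iter_eq, pw_num, pw_denom, mul_one] at hfin
  obtain ⟨e, he⟩ := hqd
  have he0 : 0 < e := by
    rcases Nat.eq_zero_or_pos e with h | h
    · rw [h] at he; omega
    · exact h
  have hM : d ^ (κ + 1) = q ^ κ * (q * e ^ (κ + 1)) := by
    rw [he, mul_pow, pow_succ]; ring
  have h1 := chain (K := K) (q * e ^ (κ + 1)) q (by have := hq.pos; positivity) hq.two_le b κ
  rw [hM, hα] at hfin
  omega

end Pool.Agent.Results.MP_e85eb4_nt.NoUniformBound
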